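import Pool.Agent.U62.RB.Hyp2
import Pool.Agent.U581.FL.PolyData

/-!
# The errors of the moments of the Frobenius traces of random curves of genus `g` are Brownian motions

Let `C_c : Y ^ 2 = X ^ (2 g + 1) + c_(2 g) X ^ (2 g) + ... + c_0` be a curve of genus `g` with random integer coefficients and let
`a_1(p)` be the first coefficient of its normalised `L`-polynomial at `p`.  For a generic curve the mean value of `φ(a_1(p))` over the
primes should be the expectation of `φ(tr γ)` for a random matrix `γ` in `USp(2 g)`, for all polynomials `φ`.  Let `φ_1, ..., φ_k` be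
polynomials of degree at most `g + 1` which are orthonormal for the law of the trace and orthogonal to the constants, and let `P` be a
finite set of primes.  The partial sums of `φ_i(a_1(p))` over the primes `p ∈ P` of good reduction, in increasing order and divided by
`|P| ^ (1 / 2)`, form `k` random polygonal paths on `[0, 1]`.  We show that these paths converge in distribution, in the space of
`k`-tuples of continuous functions on `[0, 1]`, to `k` independent Brownian motions.

The moments up to the order `2 g + 3` of the trace of a random matrix in `USp(2 g)` are those of the standard normal law, except that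
the moment of order `2 g + 2` is smaller by one; the expectation below is defined by these numbers.
-/

set_option autoImplicit false

namespace Pool.Agent.Results.MP_3da4c4_nt.BrownianErrorTerm

open Finset MeasureTheory ProbabilityTheory Polynomial
open scoped BoundedContinuousFunction NNReal

/-- The number of the solutions of `Y ^ 2 = X ^ (2 g + 1) + c_(2 g) X ^ (2 g) + ... + c_0` in the field with `p` elements. -/
noncomputable def points (g p : ℕ) (c : Fin (2 * g + 1) → ℤ) : ℕ :=
  Nat.card {P : ZMod p × ZMod p // P.2 ^ 2 = P.1 ^ (2 * g + 1) + ∑ i, (c i : ZMod p) * P.1 ^ (i : ℕ)}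

/-- `p` is odd and `X ^ (2 g + 1) + ... + c_0` is separable modulo `p`, so that the curve with this equation has good reduction
at `p`. -/
def IsGood (g p : ℕ) (c : Fin (2 * g + 1) → ℤ) : Prop :=
  p ≠ 2 ∧ (Polynomial.X ^ (2 * g + 1) + ∑ i, Polynomial.C (c i : ZMod p) * Polynomial.X ^ (i : ℕ)).Separable

/-- The coefficient `a_1` of the normalised `L`-polynomial `1 + a_1 T + ...` at `p`: the number `#C(F_p) - (p + 1)` divided by
`p ^ (1 / 2)` (there is one point at infinity, so that `#C(F_p) = points g p c + 1`). -/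
noncomputable def a₁ (g p : ℕ) (c : Fin (2 * g + 1) → ℤ) : ℝ :=
  (((points g p c : ℝ) + 1) - ((p : ℝ) + 1)) / Real.sqrt p

open Classical in
/-- The polygonal path of the partial sums of `φ(a_1(p))` over the primes `p ∈ P` of good reduction, divided by `|P| ^ (1 / 2)`: the
factor of the term of `p` is `0` for `|P| t ≤ r` and `1` for `|P| t ≥ r + 1`, where `r` is the number of the members of `P` which
are smaller than `p`, and it is linear in between. At the time `m / |P|` the path is the sum over the good ones among the `m` smallest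
members of `P`. -/
noncomputable def path (g : ℕ) (φ : ℝ[X]) (P : Finset ℕ) (c : Fin (2 * g + 1) → ℤ) : C(unitInterval, ℝ) where
  toFun t := (∑ p ∈ P.filter (fun p => IsGood g p c),
    φ.eval (a₁ g p c) * max 0 (min 1 (P.card * (t : ℝ) - (P.filter (fun q => q < p)).card))) / √P.card
  continuous_toFun := by fun_prop

/-- The moment of order `m ≤ 2 g + 3` of the trace of a random matrix in `USp(2 g)`. -/
noncomputable def moment (g m : ℕ) : ℝ :=
  (if Even m then (Nat.doubleFactorial (m - 1) : ℝ) else 0) - if m = 2 * g + 2 then 1 else 0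

/-- The expectation of `ψ(tr γ)` for a random matrix `γ` in `USp(2 g)`, for polynomials `ψ` of degree at most `2 g + 3`. -/
noncomputable def expectation (g : ℕ) (ψ : ℝ[X]) : ℝ := ψ.sum fun m a => a * moment g m

/-- The mean value of `f` over the integer vectors `c` with coordinates of absolute value at most `H`. -/
noncomputable def average {n : ℕ} (H : ℕ) (f : (Fin n → ℤ) → ℝ) : ℝ :=
  (∑ c ∈ Fintype.piFinset (fun _ : Fin n => Finset.Icc (-(H : ℤ)) H), f c) / (2 * H + 1 : ℝ) ^ n

/-- The path of `B` on `[0, 1]` as a continuous function (and `0` if it is not continuous). -/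
noncomputable def unitPath {Ω : Type} (B : ℝ≥0 → Ω → ℝ) (ω : Ω) : C(unitInterval, ℝ) :=
  ContinuousMap.mkD (fun t : unitInterval => B ⟨(t : ℝ), t.2.1⟩ ω) 0

lemma card_affine {F : Type} [Field F] [Fintype F] [DecidableEq F] (hF : ringChar F ≠ 2) (f : F → F) :
    (Nat.card {P : F × F // P.2 ^ 2 = f P.1} : ℝ) = (Fintype.card F : ℝ) + ∑ x : F, (quadraticChar F (f x) : ℝ) := by
  classical
  have h1 : Nat.card {P : F × F // P.2 ^ 2 = f P.1} = ∑ x : F, Nat.card {y : F // y ^ 2 = f x} := by
    rw [← Nat.card_sigma]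
    refine Nat.card_congr ⟨fun P => ⟨P.1.1, ⟨P.1.2, P.2⟩⟩, fun P => ⟨(P.1, P.2.1), P.2.2⟩, fun _ => rfl, fun _ => rfl⟩
  have h2 : ∀ x : F, ((Nat.card {y : F // y ^ 2 = f x} : ℕ) : ℤ) = quadraticChar F (f x) + 1 := by
    intro x
    rw [← quadraticChar_card_sqrts hF (f x)]
    congr 1
    rw [Nat.card_eq_fintype_card, Fintype.card_subtype]
    congr 1
    ext y
    simp
  rw [h1]
  push_cast
  have h3 : ∀ x : F, ((Nat.card {y : F // y ^ 2 = f x} : ℕ) : ℝ) = (quadraticChar F (f x) : ℝ) + 1 := by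
    intro x
    have := h2 x
    exact_mod_cast this
  rw [sum_congr rfl (fun x _ => h3 x), sum_add_distrib, sum_const, card_univ, nsmul_eq_mul, mul_one]
  ring

lemma res_cast {d p : ℕ} (hp : 0 < p) (c : Fin d → ℤ) (R : Type) [CommRing R] [CharP R p] (i : Fin d) :
    ((Pool.Agent.U62.RB.res p c i : ℕ) : R) = (c i : R) := by
  unfold Pool.Agent.U62.RB.res
  have hp' : (0 : ℤ) < p := by exact_mod_cast hp
  have h1 : (((c i % p).toNat : ℕ) : ℤ) = c i % p := Int.toNat_of_nonneg (Int.emod_nonneg _ hp'.ne')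
  have h2 : (((c i % p).toNat : ℕ) : R) = ((((c i % p).toNat : ℕ) : ℤ) : R) := by push_cast; rfl
  rw [h2, h1]
  have h3 : (p : ℤ) ∣ c i % p - c i := (Int.mod_modEq (c i) p).symm.dvd
  have h4 : ((c i % p - c i : ℤ) : R) = 0 := (CharP.intCast_eq_zero_iff R p _).2 h3
  push_cast at h4 ⊢
  exact sub_eq_zero.1 h4

lemma pol_eq (g p : ℕ) [hp : Fact p.Prime] (c : Fin (2 * g + 1) → ℤ) :
    (Pool.Agent.Y57.FD.HM.pol p (D := 2 * g + 1) (fun i => ((Pool.Agent.U62.RB.res p c i : ℕ) : ZMod p))) =
    Polynomial.X ^ (2 * g + 1) + ∑ i, Polynomial.C (c i : ZMod p) * Polynomial.X ^ (i : ℕ) := by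
  have e : (fun i => ((Pool.Agent.U62.RB.res p c i : ℕ) : ZMod p)) = fun i => (c i : ZMod p) := by
    funext i
    exact res_cast hp.out.pos c (ZMod p) i
  rw [e]
  rfl

lemma points_eq (g p : ℕ) [hp : Fact p.Prime] (h2 : p ≠ 2) (c : Fin (2 * g + 1) → ℤ) :
    (points g p c : ℝ) = (p : ℝ) + ∑ x : ZMod p, (quadraticChar (ZMod p)
      (Pool.Agent.Y57.FD.Mom.val (ZMod p) (2 * g + 1) (fun i => ((Pool.Agent.U62.RB.res p c i : ℕ) : ZMod p)) x) : ℝ) := by
  have e : (fun i => ((Pool.Agent.U62.RB.res p c i : ℕ) : ZMod p)) = fun i => (c i : ZMod p) := by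
    funext i
    exact res_cast hp.out.pos c (ZMod p) i
  unfold points
  rw [card_affine (Pool.Agent.V11210.G2.ringChar_zmod p h2) (fun x => x ^ (2 * g + 1) + ∑ i, (c i : ZMod p) * x ^ (i : ℕ)), ZMod.card, e]
  rfl

lemma term_eq (g p : ℕ) (hp : p.Prime) (c : Fin (2 * g + 1) → ℤ) {k : ℕ} (φ : Fin k → ℝ[X]) (i : Fin k) :
    (IsGood g p c → Pool.Agent.U62.RB.FP g φ i p c = (φ i).eval (a₁ g p c)) ∧
    (¬ IsGood g p c → Pool.Agent.U62.RB.FP g φ i p c = 0) := by
  classical
  haveI : Fact p.Prime := ⟨hp⟩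
  unfold Pool.Agent.U62.RB.FP Pool.Agent.U62.RB.gd Pool.Agent.Y57.FD.HM.tr
  constructor
  · intro h
    have h3 : (Pool.Agent.Y57.FD.HM.pol p (D := 2 * g + 1) (fun i => ((Pool.Agent.U62.RB.res p c i : ℕ) : ZMod p))).Separable := by
      rw [pol_eq]
      exact h.2
    rw [dif_pos ⟨hp, h.1⟩, dif_pos ⟨hp, h.1⟩, if_pos h3, if_pos h3, one_mul]
    congr 1
    unfold a₁
    rw [points_eq g p h.1, ZMod.card]
    congr 1
    ring
  · intro h
    by_cases h2 : p = 2
    · rw [dif_neg (fun h' => h'.2 h2), zero_mul]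
    · have h3 : ¬ (Pool.Agent.Y57.FD.HM.pol p (D := 2 * g + 1) (fun i => ((Pool.Agent.U62.RB.res p c i : ℕ) : ZMod p))).Separable := by
        rw [pol_eq]
        exact fun h' => h ⟨h2, h'⟩
      rw [dif_pos ⟨hp, h2⟩, if_neg h3, zero_mul]

lemma path_eq (g : ℕ) {k : ℕ} (φ : Fin k → ℝ[X]) (i : Fin k) (P : Finset ℕ) (hP : ∀ p ∈ P, p.Prime)
    (c : Fin (2 * g + 1) → ℤ) : path g (φ i) P c =
      Pool.Agent.U581.FL.ppath P (√P.card) (fun p => Pool.Agent.U62.RB.FP g φ i p c) := by
  classical
  ext t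
  rw [Pool.Agent.U581.FL.ppath_apply]
  change (∑ p ∈ P.filter (fun p => IsGood g p c), (φ i).eval (a₁ g p c) *
    max 0 (min 1 (P.card * (t : ℝ) - (P.filter (fun q => q < p)).card))) / √P.card = _
  congr 1
  rw [Finset.sum_filter]
  refine Finset.sum_congr rfl fun p hp => ?_
  obtain ⟨h1, h2⟩ := term_eq g p (hP p hp) c φ i
  by_cases h : IsGood g p c
  · rw [if_pos h, h1 h]
    rfl
  · rw [if_neg h, h2 h, zero_mul]

lemma average_eq {n : ℕ} (H : ℕ) (f : (Fin n → ℤ) → ℝ) : average H f = Pool.Agent.Y722.HS.EB H f := by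
  unfold average Pool.Agent.Y722.HS.EB Pool.Agent.Y722.HS.box Pool.Agent.Y722.HS.IH
  rw [Fintype.card_fin]

/-- **The invariance principle for the errors of the moments.** Let `φ_1, ..., φ_k` be real polynomials of degree at
most `g + 1` with `E φ_i = 0` and `E φ_i φ_j = δ_ij` for the law of the trace in `USp(2 g)`, let `B_1, ..., B_k` be independent
Brownian motions and `F` a bounded continuous function of `k` continuous functions on `[0, 1]`. For `ε > 0`
there is a `K` with the following property. Let `P` be a set of at least `K` primes `p ≤ y` and `H ≥ y ^ K`. Then the mean value of `F`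
at the `k` paths of the partial sums of `φ_i(a_1(p))` over the `p ∈ P` of good reduction
of `Y ^ 2 = X ^ (2 g + 1) + c_(2 g) X ^ (2 g) + ... + c_0`, over the integer vectors `c` with `|c_j| ≤ H`, differs
from `E F(B_1, ..., B_k)` by at most `ε`. -/
theorem result (g k : ℕ) (φ : Fin k → ℝ[X]) (hd : ∀ i, (φ i).natDegree ≤ g + 1)
    (h0 : ∀ i, expectation g (φ i) = 0) (h1 : ∀ i j, expectation g (φ i * φ j) = if i = j then 1 else 0)
    {Ω : Type} [MeasurableSpace Ω] (μ : Measure Ω) [IsProbabilityMeasure μ] (B : Fin k → ℝ≥0 → Ω → ℝ)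
    (hB : ∀ i, IsBrownianReal (B i) μ) (hI : iIndepFun (fun i ω t => B i t ω) μ)
    (F : (Fin k → C(unitInterval, ℝ)) →ᵇ ℝ) (ε : ℝ) (hε : 0 < ε) :
    ∃ K : ℕ, ∀ (P : Finset ℕ) (y H : ℕ), (∀ p ∈ P, p.Prime ∧ p ≤ y) → K ≤ P.card → y ^ K ≤ H →
      |average H (fun c => F (fun i => path g (φ i) P c)) - ∫ ω, F (fun i => unitPath (B i) ω) ∂μ| ≤ ε := by
  letI : MeasurableSpace C(unitInterval, ℝ) := borel _
  haveI : BorelSpace C(unitInterval, ℝ) := ⟨rfl⟩
  obtain ⟨b, C, hb, hC, hF⟩ := Pool.Agent.U581.FL.poly_data g k φ hd h0 h1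
  obtain ⟨K, hK⟩ := Pool.Agent.U581.FL.bounded_main (2 * g + 1) k hb hC
    (⟨hB, hI⟩ : Pool.Agent.U581.FL.IndBrown B μ) F hε
  refine ⟨K, fun P y H hP hPc hH => ?_⟩
  have h := hK ⟨Pool.Agent.U62.RB.FP g φ, P, y, H⟩ (hF P y H K hP hPc hH)
  have e : (fun c => F (fun i => path g (φ i) P c)) = fun c =>
      F (Pool.Agent.U581.FL.BD.Y ⟨Pool.Agent.U62.RB.FP g φ, P, y, H⟩ c) := by
    funext c
    congr 1
    funext i
    exact path_eq g φ i P (fun p hp => (hP p hp).1) c
  rw [average_eq, e]
  exact h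

end Pool.Agent.Results.MP_3da4c4_nt.BrownianErrorTerm
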