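import Pool.Agent.U62.LD.Sgn

/-!
# The moderate deviations of the errors of the moments of the Frobenius traces of random curves of genus `g`

Let `C_c : Y ^ 2 = X ^ (2 g + 1) + c_(2 g) X ^ (2 g) + ... + c_0` be a curve of genus `g` with random integer coefficients and let
`a_1(p)` be the first coefficient of its normalised `L`-polynomial at `p`.  For a generic curve the mean value of `φ(a_1(p))` over the
primes should be the expectation of `φ(tr γ)` for a random matrix `γ` in `USp(2 g)`, for all polynomials `φ`.  We find, for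
polynomials `φ_1, ..., φ_k` of degree at most `g + 1` which are orthonormal for the law of the trace, the exact exponents of
the moderate deviations of the errors, that is of the sums of `φ_i(a_1(p))` over the primes of good reduction in an arbitrary finite
set `P`, with arbitrary weights, up to the size `|P| ^ (2 / 3)`, for random coefficients `c`: they are those
of independent Gaussian variables.

The moments up to the order `2 g + 3` of the trace of a random matrix in `USp(2 g)` are those of the standard normal law, except that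
the moment of order `2 g + 2` is smaller by one; the expectation below is defined by these numbers.
-/

set_option autoImplicit false

namespace Pool.Agent.Results.MP_3da4c4_nt.ModerateDeviations

open Finset Polynomial

/-- The number of the solutions of `Y ^ 2 = X ^ (2 g + 1) + c_(2 g) X ^ (2 g) + ... + c_0` in the field with `p` elements. -/
noncomputable def points (g p : ℕ) (c : Fin (2 * g + 1) → ℤ) : ℕ :=
  Nat.card {P : ZMod p × ZMod p // P.2 ^ 2 = P.1 ^ (2 * g + 1) + ∑ i, (c i : ZMod p) * P.1 ^ (i : ℕ)}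

/-- `p` is odd and `X ^ (2 g + 1) + ... + c_0` is separable modulo `p`, so that the curve with this equation has good reduction
at `p`. -/
def IsGood (g p : ℕ) (c : Fin (2 * g + 1) → ℤ) : Prop :=
  p ≠ 2 ∧ (Polynomial.X ^ (2 * g + 1) + ∑ i, Polynomial.C (c i : ZMod p) * Polynomial.X ^ (i : ℕ)).Separable

/-- The coefficient `a_1` of the normalised `L`-polynomial `1 + a_1 T + ...` at `p`: the number `#C(F_p) - (p + 1)` divided by
`p ^ (1 / 2)` (there is one point at infinity, so that `#C(F_p) = points g p c + 1`). -/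
noncomputable def a₁ (g p : ℕ) (c : Fin (2 * g + 1) → ℤ) : ℝ :=
  (((points g p c : ℝ) + 1) - ((p : ℝ) + 1)) / Real.sqrt p

open Classical in
/-- The weighted sum of `φ(a_1(p))` over the primes `p ∈ P` of good reduction. -/
noncomputable def total (g : ℕ) (φ : ℝ[X]) (P : Finset ℕ) (w : ℕ → ℝ) (c : Fin (2 * g + 1) → ℤ) : ℝ :=
  ∑ p ∈ P.filter (fun p => IsGood g p c), w p * φ.eval (a₁ g p c)

/-- The moment of order `m ≤ 2 g + 3` of the trace of a random matrix in `USp(2 g)`. -/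
noncomputable def moment (g m : ℕ) : ℝ :=
  (if Even m then (Nat.doubleFactorial (m - 1) : ℝ) else 0) - if m = 2 * g + 2 then 1 else 0

/-- The expectation of `ψ(tr γ)` for a random matrix `γ` in `USp(2 g)`, for polynomials `ψ` of degree at most `2 g + 3`. -/
noncomputable def expectation (g : ℕ) (ψ : ℝ[X]) : ℝ := ψ.sum fun m a => a * moment g m

/-- The proportion of the integer vectors `c` with coordinates of absolute value at most `H` which have the property `Q`. -/
noncomputable def proportion {n : ℕ} (H : ℕ) (Q : (Fin n → ℤ) → Prop) : ℝ :=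
  ({c : Fin n → ℤ | (∀ i, |c i| ≤ H) ∧ Q c}.ncard : ℝ) / (2 * H + 1 : ℝ) ^ n

/-- The number `x` lies between `exp (- (R + ε) l)` and `exp (- (R - ε) l)`. -/
def Between (l : ℕ) (R ε x : ℝ) : Prop := Real.exp (-(R + ε) * l) ≤ x ∧ x ≤ Real.exp (-(R - ε) * l)

lemma card_affine {F : Type} [Field F] [Fintype F] [DecidableEq F] (hF : ringChar F ≠ 2) (f : F → F) :
    (Nat.card {P : F × F // P.2 ^ 2 = f P.1} : ℝ) = (Fintype.card F : ℝ) + ∑ x : F, (quadraticChar F (f x) : ℝ) := by
  classical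
  have h1 : Nat.card {P : F × F // P.2 ^ 2 = f P.1} = ∑ x : F, Nat.card {y : F // y ^ 2 = f x} := by
    rw [← Nat.card_sigma]
    refine Nat.card_congr ⟨fun P => ⟨P.1.1, ⟨P.1.2, P.2⟩⟩, fun P => ⟨(P.1, P.2.1), P.2.2⟩, fun _ => rfl, fun _ => rfl⟩
  have h2 : ∀ x : F, ((Nat.card {y : F // y ^ 2 = f x} : ℕ) : ℤ) = quadraticChar F (f x) + 1 := by
    intro x
    rw [← quadraticChar_card_sqrts hF (f x)]
    congr 1
    rw [Nat.card_eq_fintype_card, Fintype.card_subtype]
    congr 1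
    ext y
    simp
  rw [h1]
  push_cast
  have h3 : ∀ x : F, ((Nat.card {y : F // y ^ 2 = f x} : ℕ) : ℝ) = (quadraticChar F (f x) : ℝ) + 1 := by
    intro x
    have := h2 x
    exact_mod_cast this
  rw [sum_congr rfl (fun x _ => h3 x), sum_add_distrib, sum_const, card_univ, nsmul_eq_mul, mul_one]
  ring

lemma res_cast {d p : ℕ} (hp : 0 < p) (c : Fin d → ℤ) (R : Type) [CommRing R] [CharP R p] (i : Fin d) :
    ((Pool.Agent.U62.RB.res p c i : ℕ) : R) = (c i : R) := by
  unfold Pool.Agent.U62.RB.res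
  have hp' : (0 : ℤ) < p := by exact_mod_cast hp
  have h1 : (((c i % p).toNat : ℕ) : ℤ) = c i % p := Int.toNat_of_nonneg (Int.emod_nonneg _ hp'.ne')
  have h2 : (((c i % p).toNat : ℕ) : R) = ((((c i % p).toNat : ℕ) : ℤ) : R) := by push_cast; rfl
  rw [h2, h1]
  have h3 : (p : ℤ) ∣ c i % p - c i := (Int.mod_modEq (c i) p).symm.dvd
  have h4 : ((c i % p - c i : ℤ) : R) = 0 := (CharP.intCast_eq_zero_iff R p _).2 h3
  push_cast at h4 ⊢
  exact sub_eq_zero.1 h4

lemma pol_eq (g p : ℕ) [hp : Fact p.Prime] (c : Fin (2 * g + 1) → ℤ) :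
    (Pool.Agent.Y57.FD.HM.pol p (D := 2 * g + 1) (fun i => ((Pool.Agent.U62.RB.res p c i : ℕ) : ZMod p))) =
    Polynomial.X ^ (2 * g + 1) + ∑ i, Polynomial.C (c i : ZMod p) * Polynomial.X ^ (i : ℕ) := by
  have e : (fun i => ((Pool.Agent.U62.RB.res p c i : ℕ) : ZMod p)) = fun i => (c i : ZMod p) := by
    funext i
    exact res_cast hp.out.pos c (ZMod p) i
  rw [e]
  rfl

lemma points_eq (g p : ℕ) [hp : Fact p.Prime] (h2 : p ≠ 2) (c : Fin (2 * g + 1) → ℤ) :
    (points g p c : ℝ) = (p : ℝ) + ∑ x : ZMod p, (quadraticChar (ZMod p)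
      (Pool.Agent.Y57.FD.Mom.val (ZMod p) (2 * g + 1) (fun i => ((Pool.Agent.U62.RB.res p c i : ℕ) : ZMod p)) x) : ℝ) := by
  have e : (fun i => ((Pool.Agent.U62.RB.res p c i : ℕ) : ZMod p)) = fun i => (c i : ZMod p) := by
    funext i
    exact res_cast hp.out.pos c (ZMod p) i
  unfold points
  rw [card_affine (Pool.Agent.V11210.G2.ringChar_zmod p h2) (fun x => x ^ (2 * g + 1) + ∑ i, (c i : ZMod p) * x ^ (i : ℕ)), ZMod.card, e]
  rfl

lemma term_eq (g p : ℕ) (hp : p.Prime) (c : Fin (2 * g + 1) → ℤ) {k : ℕ} (φ : Fin k → ℝ[X]) (i : Fin k) :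
    (IsGood g p c → Pool.Agent.U62.RB.FP g φ i p c = (φ i).eval (a₁ g p c)) ∧
    (¬ IsGood g p c → Pool.Agent.U62.RB.FP g φ i p c = 0) := by
  classical
  haveI : Fact p.Prime := ⟨hp⟩
  unfold Pool.Agent.U62.RB.FP Pool.Agent.U62.RB.gd Pool.Agent.Y57.FD.HM.tr
  constructor
  · intro h
    have h3 : (Pool.Agent.Y57.FD.HM.pol p (D := 2 * g + 1) (fun i => ((Pool.Agent.U62.RB.res p c i : ℕ) : ZMod p))).Separable := by
      rw [pol_eq]
      exact h.2
    rw [dif_pos ⟨hp, h.1⟩, dif_pos ⟨hp, h.1⟩, if_pos h3, if_pos h3, one_mul]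
    congr 1
    unfold a₁
    rw [points_eq g p h.1, ZMod.card]
    congr 1
    ring
  · intro h
    by_cases h2 : p = 2
    · rw [dif_neg (fun h' => h'.2 h2), zero_mul]
    · have h3 : ¬ (Pool.Agent.Y57.FD.HM.pol p (D := 2 * g + 1) (fun i => ((Pool.Agent.U62.RB.res p c i : ℕ) : ZMod p))).Separable := by
        rw [pol_eq]
        exact fun h' => h ⟨h2, h'⟩
      rw [dif_pos ⟨hp, h2⟩, if_neg h3, zero_mul]

lemma total_eq (g : ℕ) {k : ℕ} (φ : Fin k → ℝ[X]) (i : Fin k) (P : Finset ℕ) (hP : ∀ p ∈ P, p.Prime) (w : ℕ → ℝ)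
    (c : Fin (2 * g + 1) → ℤ) : total g (φ i) P w c = ∑ p ∈ P, w p * Pool.Agent.U62.RB.FP g φ i p c := by
  classical
  unfold total
  rw [Finset.sum_filter]
  refine Finset.sum_congr rfl fun p hp => ?_
  obtain ⟨h1, h2⟩ := term_eq g p (hP p hp) c φ i
  by_cases h : IsGood g p c
  · rw [if_pos h, h1 h]
  · rw [if_neg h, h2 h, mul_zero]

/-- **The moderate deviations of the errors of the moments.** Let `φ_1, ..., φ_k` be real polynomials of degree at
most `g + 1` with `E φ_i = 0` and `E φ_i φ_j = δ_ij` for the law of the trace in `USp(2 g)`, and let `β_1, ..., β_k ≥ 0`,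
`δ > 0` and `ε > 0`. There is a `K` with the following property. Let `l ≥ K` be an integer, `P` a set of at least `l ^ 3`
primes `p ≤ y` and `|w_p| ≤ 1`, `p ∈ P`, weights with `∑ w_p ^ 2 ≥ δ |P|`, and let `σ_i = ± 1`. Then, for all `H ≥ y ^ (K l)`, the
proportion of the integer vectors `c` with `|c_j| ≤ H` for which the sum of `w_p φ_i(a_1(p))` over the `p ∈ P` of good reduction
of `Y ^ 2 = X ^ (2 g + 1) + c_(2 g) X ^ (2 g) + ... + c_0`, multiplied by `σ_i`, is at least `β_i (l ∑ w_p ^ 2) ^ (1 / 2)`,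
for all `i`, lies between `exp (- (R + ε) l)` and `exp (- (R - ε) l)`, where `R = ∑ β_i ^ 2 / 2`. -/
theorem result (g k : ℕ) (φ : Fin k → ℝ[X]) (hd : ∀ i, (φ i).natDegree ≤ g + 1)
    (h0 : ∀ i, expectation g (φ i) = 0) (h1 : ∀ i j, expectation g (φ i * φ j) = if i = j then 1 else 0)
    (β : Fin k → ℝ) (hβ : ∀ i, 0 ≤ β i) (δ ε : ℝ) (hδ : 0 < δ) (hε : 0 < ε) :
    ∃ K : ℕ, ∀ (P : Finset ℕ) (w : ℕ → ℝ) (σ : Fin k → ℝ) (y H l : ℕ), (∀ p ∈ P, p.Prime ∧ p ≤ y) → K ≤ l → l ^ 3 ≤ P.card →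
      (∀ p ∈ P, |w p| ≤ 1) → δ * P.card ≤ ∑ p ∈ P, w p ^ 2 → (∀ i, σ i = 1 ∨ σ i = -1) → y ^ (K * l) ≤ H →
      Between l (∑ i, β i ^ 2 / 2) ε (proportion H (fun c : Fin (2 * g + 1) → ℤ => ∀ i, β i * √(l * ∑ p ∈ P, w p ^ 2) ≤
        σ i * total g (φ i) P w c)) := by
  obtain ⟨B, C, hB, hC, hsys⟩ := Pool.Agent.U62.LD.poly_sys g k φ hd h0 h1
  obtain ⟨K, hK⟩ := Pool.Agent.U62.LD.mdp_signs (2 * g + 1) k hβ hδ hε hB hC
  refine ⟨K, fun P w σ y H l hP hl hlP hw hws hσ hH => ?_⟩
  have h := hK (Pool.Agent.U62.RB.FP g φ) P w y H l σ (hsys δ P w y hP hw hws) hσ hl hlP hH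
  have e : (fun c : Fin (2 * g + 1) → ℤ => ∀ i, β i * √(l * ∑ p ∈ P, w p ^ 2) ≤ σ i * total g (φ i) P w c) =
      fun c => ∀ i, β i * √(l * ∑ p ∈ P, w p ^ 2) ≤ σ i * ∑ p ∈ P, w p * Pool.Agent.U62.RB.FP g φ i p c := by
    funext c
    refine propext (forall_congr' fun i => ?_)
    rw [total_eq g φ i P (fun p hp => (hP p hp).1) w c]
  rw [e]
  exact h

end Pool.Agent.Results.MP_3da4c4_nt.ModerateDeviations
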