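import Pool.Agent.U471.DQ.Hyp

/-!
# The moments of order at most `2 g + 3` of the Frobenius traces of all the hyperelliptic curves of genus `g` whose coefficients
are close to almost all points of a real polynomial curve

From Mathlib: `Polynomial.eval`, `Polynomial.coeff`, `Polynomial.natDegree`: real polynomials; `Polynomial.Separable`;
`Nat.Prime`: primes; `Nat.doubleFactorial`; `IsAlgebraic ℚ`: algebraic numbers.

Method: Weyl's inequality without losses for all the coefficients at the same time (an inverse theorem, from the starting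
files for the top coefficient), a discrete Fejer kernel for the integer parts of several functions, uniform distribution
in residue classes with a power saving, high moments; the mean values over the curves modulo `p` and Weil's bound are from
the starting files (`Pool.Agent.Y57.FD.HypM`, `Pool.Agent.H341R2.WeilSharp`).
-/

set_option autoImplicit false

namespace Pool.Agent.Results.MP_3da4c4_nt.TraceMoments

open Finset

/-- The polynomials `f 0, ..., f (r - 1)` are not on major arcs, at the scale `N` and with the parameter `R`: for every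
integer vector `l ≠ 0` with all `|l i| ≤ R` there is `1 ≤ j ≤ d` such that the number
`∑ i, l i * (coefficient of f i at X ^ j)` has a distance of more than `R / N ^ j` from all the integers. -/
def Generic {r : ℕ} (d N : ℕ) (R : ℝ) (f : Fin r → Polynomial ℝ) : Prop :=
  ∀ l : Fin r → ℤ, l ≠ 0 → (∀ i, (|l i| : ℝ) ≤ R) → ∃ j : ℕ, 1 ≤ j ∧ j ≤ d ∧
    ∀ b : ℤ, R / (N : ℝ) ^ j < |∑ i, (l i : ℝ) * (f i).coeff j - b|

/-- `α` has a finite irrationality exponent. -/
def FiniteType (α : ℝ) : Prop := ∃ (w : ℕ) (c : ℝ), 0 < c ∧ ∀ q : ℕ, 1 ≤ q → ∀ a : ℤ, c / (q : ℝ) ^ w ≤ |q * α - a|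

/-- The number of the solutions of `Y ^ 2 = X ^ (2 g + 1) + c_(2 g) X ^ (2 g) + ... + c_0` in the field with `p` elements. -/
noncomputable def points (g p : ℕ) (c : Fin (2 * g + 1) → ℤ) : ℕ :=
  Nat.card {P : ZMod p × ZMod p // P.2 ^ 2 = P.1 ^ (2 * g + 1) + ∑ i, (c i : ZMod p) * P.1 ^ (i : ℕ)}

/-- `p` is odd and `X ^ (2 g + 1) + ... + c_0` is separable modulo `p`, so that the curve with this equation has good reduction
at `p`. -/
def IsGood (g p : ℕ) (c : Fin (2 * g + 1) → ℤ) : Prop :=
  p ≠ 2 ∧ (Polynomial.X ^ (2 * g + 1) + ∑ i, Polynomial.C (c i : ZMod p) * Polynomial.X ^ (i : ℕ)).Separable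

/-- The coefficient `a_1` of the normalised `L`-polynomial `1 + a_1 T + ...` at `p`: the number `#C(F_p) - (p + 1)` divided by
`p ^ (1 / 2)` (there is one point at infinity, so that `#C(F_p) = points g p c + 1`). -/
noncomputable def a₁ (g p : ℕ) (c : Fin (2 * g + 1) → ℤ) : ℝ := ((points g p c : ℝ) - p) / √(p : ℝ)

open Classical in
/-- The sum of `a_1 ^ m` over the primes `p ≤ x` of good reduction. -/
noncomputable def momentSum (g m : ℕ) (c : Fin (2 * g + 1) → ℤ) (x : ℕ) : ℝ :=
  ∑ p ∈ (range (x + 1)).filter (fun p => p.Prime ∧ IsGood g p c), a₁ g p c ^ m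

/-- The moment of order `m ≤ 2 g + 3` of the trace of a random matrix in `USp(2 g)`: `(m - 1)!!` for even `m`, minus one for
`m = 2 g + 2`, and `0` for odd `m`. -/
noncomputable def moment (g m : ℕ) : ℝ :=
  (if Even m then (Nat.doubleFactorial (m - 1) : ℝ) else 0) - if m = 2 * g + 2 then 1 else 0

/-- The number of the primes `p ≤ x`. -/
def primeCount (x : ℕ) : ℕ := ((range (x + 1)).filter Nat.Prime).card

lemma sum_eq (g m : ℕ) (c : Fin (2 * g + 1) → ℤ) (x : ℕ) :
    momentSum g m c x = ∑ p ∈ Pool.Agent.U471.DQ.prs x, Pool.Agent.U471.DQ.Hyp.loc g m p c := by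
  classical
  unfold momentSum Pool.Agent.U471.DQ.prs Pool.Agent.U471.DQ.Hyp.loc
  rw [← sum_filter, filter_filter]
  apply sum_congr
  · ext p
    rw [mem_filter, mem_filter]
    rfl
  · intro p _
    rfl

/-- **(1)** Let `g` and `d` be positive integers and let `δ > 0`. There are `κ > 0` and `C` such that the following holds for
all `N, R ≥ 1` and for all real polynomials `f 0, ..., f (2 g)` of degree at most `d` which are not on major arcs
(`Generic`). All the integers `0 ≤ n < N` with at most `C N R ^ (- κ)` exceptions are such that for ALL integer vectors `c`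
with all `|c i - f i (n)| ≤ R ^ κ`, ALL `m ≤ 2 g + 3` and ALL `x ≤ R ^ κ`: the sum of `a_1(p) ^ m` over the primes `p ≤ x` of
good reduction of the curve `Y ^ 2 = X ^ (2 g + 1) + c_(2 g) X ^ (2 g) + ... + c_0` differs from the number of the primes
`p ≤ x` times the moment of order `m` of the trace of a random matrix in `USp(2 g)` by at most
`C x ^ (1 / 2 + δ) (1 + log R) ^ (1 / 2)`.

**(2)** If for every `i` there is `1 ≤ j ≤ d` such that the coefficient of `f i` at `X ^ j` has a finite irrationality exponent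
and the coefficients of the other polynomials at `X ^ j` are zero, then (1) applies with `R = N ^ β`, for some `β > 0` and
all large `N`. **(3)** This includes irrational algebraic coefficients. -/
theorem result :
    (∀ (g d : ℕ), 1 ≤ g → 1 ≤ d → ∀ δ : ℝ, 0 < δ → ∃ κ C : ℝ, 0 < κ ∧ 0 < C ∧
      ∀ (N : ℕ) (R : ℝ) (f : Fin (2 * g + 1) → Polynomial ℝ), 1 ≤ N → 1 ≤ R → (∀ i, (f i).natDegree ≤ d) → Generic d N R f →
      ∃ E : Finset ℕ, (E.card : ℝ) ≤ C * (N * R ^ (-κ)) ∧ ∀ n : ℕ, n < N → n ∉ E →
        ∀ c : Fin (2 * g + 1) → ℤ, (∀ i, |(c i : ℝ) - (f i).eval (n : ℝ)| ≤ R ^ κ) → ∀ m : ℕ, m ≤ 2 * g + 3 →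
        ∀ x : ℕ, (x : ℝ) ≤ R ^ κ →
          |momentSum g m c x - moment g m * primeCount x| ≤ C * ((x : ℝ) ^ (1 / 2 + δ) * √(1 + Real.log R))) ∧
    (∀ (r d : ℕ) (f : Fin r → Polynomial ℝ),
      (∀ i, ∃ j, 1 ≤ j ∧ j ≤ d ∧ FiniteType ((f i).coeff j) ∧ ∀ i', i' ≠ i → (f i').coeff j = 0) →
      ∃ β : ℝ, 0 < β ∧ ∃ N₀ : ℕ, ∀ N : ℕ, N₀ ≤ N → Generic d N ((N : ℝ) ^ β) f) ∧
    (∀ α : ℝ, Irrational α → IsAlgebraic ℚ α → FiniteType α) := by
  classical
  refine ⟨?_, ?_, fun α h h' => Pool.Agent.U471.DQ.finType_alg h h'⟩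
  · intro g d hg hd δ hδ
    obtain ⟨κ, C, h1, h1', h3, H⟩ := Pool.Agent.U471.DQ.near_sum_fin (2 * g + 1) d hd (2 * g + 4) (by
      have : (0 : ℝ) ≤ g := Nat.cast_nonneg g
      linarith) δ hδ
    have hch : ∀ m : ℕ, ∃ K : ℝ, 0 ≤ K ∧ (m ≤ 2 * g + 3 → ∀ p : ℕ, p.Prime →
        |Pool.Agent.U471.DQ.mn p (Pool.Agent.U471.DQ.Hyp.loc g m p) - Pool.Agent.Y57.FD.Mom.usp g m| ≤ K / p) := by
      intro m
      by_cases hm : m ≤ 2 * g + 3
      · obtain ⟨K, hK, h⟩ := Pool.Agent.U471.DQ.Hyp.loc_mean g m hg hm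
        exact ⟨K, hK, fun _ => h⟩
      · exact ⟨0, le_rfl, fun h => absurd h hm⟩
    choose K hK0 hK using hch
    obtain ⟨W, hW⟩ : ∃ W : ℝ, W = (2 * g + 1 : ℝ) ^ (2 * g + 3) := ⟨_, rfl⟩
    obtain ⟨K', hK'⟩ : ∃ K' : ℝ, K' = ∑ m ∈ range (2 * g + 4), K m := ⟨_, rfl⟩
    have hK'0 : 0 ≤ K' := by rw [hK']; exact sum_nonneg fun m _ => hK0 m
    have hg0 : (0 : ℝ) ≤ g := Nat.cast_nonneg g
    have hW0 : 1 ≤ W := by rw [hW]; exact one_le_pow₀ (by linarith)
    refine ⟨κ, C * W + 3 * K', h1, by positivity, ?_⟩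
    intro N R f hN hR hf hgen
    have hR0 : 0 < R := by linarith
    have hRκ : 1 ≤ R ^ κ := Real.one_le_rpow hR h1.le
    obtain ⟨E, _, hE2, hE3⟩ := H N R f hN hR hf hgen ℕ (range (2 * g + 4)) (by
        rw [card_range]
        push_cast
        nlinarith)
      (fun m p c => if m ≤ 2 * g + 3 then Pool.Agent.U471.DQ.Hyp.loc g m p c else 0) (fun _ _ => W) (by
        intro m p _ u u' hu
        simp only
        rw [Pool.Agent.U471.DQ.Hyp.loc_congr hu]) (fun _ _ => by linarith) (by
        intro m X p u hp _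
        by_cases hm : m ≤ 2 * g + 3
        · rw [if_pos hm]
          refine (Pool.Agent.U471.DQ.Hyp.loc_le hp u).trans ?_
          rw [hW]
          exact pow_le_pow_right₀ (by linarith) hm
        · rw [if_neg hm, abs_zero]
          linarith)
    refine ⟨E, ?_, fun n hn hnE c hc m hm x hx => ?_⟩
    · refine hE2.trans ?_
      apply mul_le_mul_of_nonneg_right _ (by positivity)
      nlinarith
    · have h7 := hE3 n (mem_range.2 hn) hnE c hc m (mem_range.2 (by omega)) x hx
      simp only [if_pos hm] at h7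
      rcases Nat.eq_zero_or_pos x with hx0 | hx0
      · subst hx0
        have e1 : momentSum g m c 0 = 0 := by
          rw [sum_eq]
          apply sum_eq_zero
          intro p hp
          unfold Pool.Agent.U471.DQ.prs at hp
          rw [mem_filter, mem_range] at hp
          have := hp.2.two_le
          omega
        have e2 : primeCount 0 = 0 := by
          unfold primeCount
          rw [card_eq_zero]
          apply filter_false_of_mem
          intro p hp hpp
          rw [mem_range] at hp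
          have := hpp.two_le
          omega
        rw [e1, e2, Nat.cast_zero, mul_zero, sub_zero, abs_zero]
        positivity
      have hx0' : (0 : ℝ) < x := by exact_mod_cast hx0
      have hx1 : (1 : ℝ) ≤ x := by exact_mod_cast hx0
      have e1 : momentSum g m c x = ∑ p ∈ Pool.Agent.U471.DQ.prs x, Pool.Agent.U471.DQ.Hyp.loc g m p c := sum_eq g m c x
      rw [← e1] at h7
      have e2 : moment g m * primeCount x = ∑ p ∈ Pool.Agent.U471.DQ.prs x, Pool.Agent.Y57.FD.Mom.usp g m := by
        rw [sum_const, nsmul_eq_mul, mul_comm]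
        unfold primeCount Pool.Agent.U471.DQ.prs moment Pool.Agent.Y57.FD.Mom.usp Pool.Agent.Y57.FD.Mom.normal
        rfl
      have h8 : |∑ p ∈ Pool.Agent.U471.DQ.prs x, Pool.Agent.U471.DQ.mn p (Pool.Agent.U471.DQ.Hyp.loc g m p) -
          moment g m * primeCount x| ≤ K' * (1 + Real.log x) := by
        rw [e2, ← sum_sub_distrib]
        refine (abs_sum_le_sum_abs _ _).trans ?_
        have h9 : ∀ p ∈ Pool.Agent.U471.DQ.prs x, |Pool.Agent.U471.DQ.mn p (Pool.Agent.U471.DQ.Hyp.loc g m p) -
            Pool.Agent.Y57.FD.Mom.usp g m| ≤ K m * (1 / p) := by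
          intro p hp
          unfold Pool.Agent.U471.DQ.prs at hp
          rw [mem_filter] at hp
          refine (hK m hm p hp.2).trans (le_of_eq ?_)
          ring
        refine (sum_le_sum h9).trans ?_
        rw [← mul_sum]
        have h10 : K m ≤ K' := by
          rw [hK']
          exact single_le_sum (fun i _ => hK0 i) (mem_range.2 (by omega : m < 2 * g + 4))
        have h11 : ∑ p ∈ Pool.Agent.U471.DQ.prs x, 1 / (p : ℝ) ≤ 1 + Real.log x := by
          have h12 : ∑ p ∈ Pool.Agent.U471.DQ.prs x, 1 / (p : ℝ) ≤ ∑ p ∈ Icc 1 x, 1 / (p : ℝ) := by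
            apply sum_le_sum_of_subset_of_nonneg
            · intro p hp
              unfold Pool.Agent.U471.DQ.prs at hp
              rw [mem_filter, mem_range] at hp
              rw [mem_Icc]
              exact ⟨hp.2.one_le, by omega⟩
            · intro p _ _
              positivity
          have h13 := harmonic_le_one_add_log x
          have h14 : ((harmonic x : ℚ) : ℝ) = ∑ p ∈ Icc 1 x, 1 / (p : ℝ) := by
            rw [harmonic_eq_sum_Icc]
            push_cast
            simp [one_div]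
          linarith
        exact mul_le_mul h10 h11 (sum_nonneg fun p _ => by positivity) hK'0
      have h15 : 1 + Real.log x ≤ 3 * (x : ℝ) ^ (1 / 2 + δ) := by
        have h16 := Real.log_le_rpow_div hx0'.le (by norm_num : (0 : ℝ) < 1 / 2)
        have h17 : (x : ℝ) ^ (1 / 2 : ℝ) ≤ (x : ℝ) ^ (1 / 2 + δ) := Real.rpow_le_rpow_of_exponent_le hx1 (by linarith)
        have h18 : 1 ≤ (x : ℝ) ^ (1 / 2 + δ) := Real.one_le_rpow hx1 (by linarith)
        have h19 : Real.log x ≤ 2 * (x : ℝ) ^ (1 / 2 : ℝ) := by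
          refine h16.trans (le_of_eq ?_)
          ring
        linarith
      have h20 : 1 ≤ √(1 + Real.log R) := by
        rw [Real.one_le_sqrt]
        linarith [Real.log_nonneg hR]
      calc |momentSum g m c x - moment g m * primeCount x| ≤
            |momentSum g m c x - ∑ p ∈ Pool.Agent.U471.DQ.prs x, Pool.Agent.U471.DQ.mn p (Pool.Agent.U471.DQ.Hyp.loc g m p)| +
            |∑ p ∈ Pool.Agent.U471.DQ.prs x, Pool.Agent.U471.DQ.mn p (Pool.Agent.U471.DQ.Hyp.loc g m p) -
              moment g m * primeCount x| := abs_sub_le _ _ _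
        _ ≤ C * (W * ((x : ℝ) ^ (1 / 2 + δ) * √(1 + Real.log R))) + K' * (3 * ((x : ℝ) ^ (1 / 2 + δ) * √(1 + Real.log R))) := by
            apply add_le_add h7
            refine h8.trans (mul_le_mul_of_nonneg_left (h15.trans ?_) hK'0)
            apply mul_le_mul_of_nonneg_left _ (by norm_num)
            exact le_mul_of_one_le_right (by positivity) h20
        _ = _ := by ring
  · intro r d f h
    obtain ⟨β, h1, _, h3⟩ := Pool.Agent.U471.DQ.gen_of_type d f h
    exact ⟨β, h1, h3⟩

end Pool.Agent.Results.MP_3da4c4_nt.TraceMoments
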